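import Pool.Agent.L7h12.SV.Stm

/-!
# Project SV, part INF (helper84)
-/

set_option autoImplicit false
set_option maxHeartbeats 400000

noncomputable section

namespace Pool.Agent.L7h84.SV

open Polynomial Set Filter Topology
open Pool.Agent.L7h12.SV

theorem vec_cont : Continuous (fun q : ℝ × ℝ => (![1, q.1, q.2] : Fin 3 → ℝ)) := by
  refine continuous_pi fun j => ?_
  fin_cases j
  · exact continuous_const
  · exact continuous_fst
  · exact continuous_snd

theorem hom_zero {F : MvPolynomial (Fin 3) ℝ} {p f : ℝ[X]} (h : Hom8 F p f) (x y : ℝ) :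
    MvPolynomial.eval ![x, y, 0] F = p.leadingCoeff * x ^ 8 - f.leadingCoeff * y ^ 8 := by
  rw [h.2.2]
  have h1 : p.leadingCoeff = p.coeff 8 := by rw [leadingCoeff, h.1]
  have h2 : f.leadingCoeff = f.coeff 8 := by rw [leadingCoeff, h.2.1]
  rw [h1, h2]
  simp [Finset.sum_range_succ]

theorem sgn8 {c δ : ℝ} (h0 : 0 < δ) (h1 : δ < |c|) :
    (c ^ 8 - (c - δ) ^ 8) * (c ^ 8 - (c + δ) ^ 8) < 0 := by
  rcases le_or_gt 0 c with hc | hc
  · rw [abs_of_nonneg hc] at h1
    have h2 : (c - δ) ^ 8 < c ^ 8 := pow_lt_pow_left₀ (by linarith) (by linarith) (by norm_num)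
    have h3 : c ^ 8 < (c + δ) ^ 8 := pow_lt_pow_left₀ (by linarith) hc (by norm_num)
    exact mul_neg_of_pos_of_neg (by linarith) (by linarith)
  · rw [abs_of_neg hc] at h1
    have h2 : (-c) ^ 8 < (-(c - δ)) ^ 8 := pow_lt_pow_left₀ (by linarith) (by linarith) (by norm_num)
    have h3 : (-(c + δ)) ^ 8 < (-c) ^ 8 := pow_lt_pow_left₀ (by linarith) (by linarith) (by norm_num)
    have e : Even 8 := by decide
    rw [e.neg_pow, e.neg_pow] at h2 h3
    exact mul_neg_of_neg_of_pos (by linarith) (by linarith)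

theorem key {k : ℕ} {F : MvPolynomial (Fin 3) ℝ} {C : Fin k → Set (Fin 3 → ℝ)} {p f : ℝ[X]}
    (h : Hom8 F p f) (hS : Spl k F C) (hf : 0 < f.leadingCoeff) (c : ℝ) (i : Fin k) (hc : c ≠ 0)
    (hi : ![1, c, 0] ∈ C i) :
    ∃ t0 : ℝ, 0 < t0 ∧ ∀ z, |z| < t0 → ∃ y, c ^ 2 / 2 ≤ c * y ∧ ![1, y, z] ∈ C i := by
  have hcone : ![1, c, 0] ∈ Pool.Agent.L7h17.OC.realCone F := by
    rw [← hS.cov]
    exact mem_iUnion.2 ⟨i, hi⟩
  have ha : p.leadingCoeff = f.leadingCoeff * c ^ 8 := by
    have h1 := hcone.2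
    rw [hom_zero h] at h1
    linarith
  choose K hK1 hK2 using hS.closed
  have hne : ∀ y z : ℝ, (![1, y, z] : Fin 3 → ℝ) ≠ 0 := by
    intro y z h1
    have := congrFun h1 0
    simp at this
  have hev : ∀ᶠ q in 𝓝 ((c, 0) : ℝ × ℝ), ∀ j, j ≠ i → (![1, q.1, q.2] : Fin 3 → ℝ) ∉ K j := by
    rw [eventually_all]
    intro j
    by_cases hj : j = i
    · exact Eventually.of_forall fun q h1 => absurd hj h1
    · have h1 : (![1, c, 0] : Fin 3 → ℝ) ∉ K j := by
        intro h2
        have h3 : (![1, c, 0] : Fin 3 → ℝ) ∈ C j := by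
          rw [hK2 j]
          exact ⟨h2, hne c 0⟩
        exact Set.disjoint_left.1 (hS.disj j i hj) h3 hi
      have h2 : (K j)ᶜ ∈ 𝓝 ((fun q : ℝ × ℝ => (![1, q.1, q.2] : Fin 3 → ℝ)) (c, 0)) :=
        (hK1 j).isOpen_compl.mem_nhds h1
      exact (vec_cont.continuousAt.eventually h2).mono fun q h3 _ => h3
  obtain ⟨ε, hε, hball⟩ := Metric.eventually_nhds_iff.1 hev
  obtain ⟨δ, hδ⟩ : ∃ δ, δ = min (ε / 2) (|c| / 2) := ⟨_, rfl⟩
  have hcp : 0 < |c| := abs_pos.2 hc
  have hδ0 : 0 < δ := by rw [hδ]; exact lt_min (by linarith) (by linarith)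
  have hδε : δ < ε := by rw [hδ]; exact (min_le_left _ _).trans_lt (by linarith)
  have hδc : δ ≤ |c| / 2 := by rw [hδ]; exact min_le_right _ _
  -- the function
  obtain ⟨G, hG⟩ : ∃ G : ℝ × ℝ → ℝ, ∀ y z, MvPolynomial.eval ![1, y, z] F = G (y, z) ∧
      Continuous G := ⟨fun q => MvPolynomial.eval ![1, q.1, q.2] F, fun y z =>
        ⟨rfl, (MvPolynomial.continuous_eval F).comp vec_cont⟩⟩
  have hGe : ∀ y z, MvPolynomial.eval ![1, y, z] F = G (y, z) := fun y z => (hG y z).1
  have hGc : Continuous G := (hG 0 0).2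
  have hprod : Continuous (fun z : ℝ => G (c - δ, z) * G (c + δ, z)) := by
    fun_prop
  have hneg : G (c - δ, 0) * G (c + δ, 0) < 0 := by
    rw [← hGe, ← hGe, hom_zero h, hom_zero h, ha]
    have h1 := sgn8 hδ0 (c := c) (by linarith)
    have h2 : (f.leadingCoeff * c ^ 8 * 1 ^ 8 - f.leadingCoeff * (c - δ) ^ 8) *
        (f.leadingCoeff * c ^ 8 * 1 ^ 8 - f.leadingCoeff * (c + δ) ^ 8) =
        f.leadingCoeff ^ 2 * ((c ^ 8 - (c - δ) ^ 8) * (c ^ 8 - (c + δ) ^ 8)) := by ring
    rw [h2]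
    exact mul_neg_of_pos_of_neg (by positivity) h1
  have hev2 : ∀ᶠ z in 𝓝 (0 : ℝ), G (c - δ, z) * G (c + δ, z) < 0 :=
    hprod.continuousAt.eventually (gt_mem_nhds hneg)
  obtain ⟨η, hη, hball2⟩ := Metric.eventually_nhds_iff.1 hev2
  refine ⟨min ε η, lt_min hε hη, fun z hz => ?_⟩
  have hz1 : |z| < ε := hz.trans_le (min_le_left _ _)
  have hz2 : |z| < η := hz.trans_le (min_le_right _ _)
  have h1 := hball2 (y := z) (by rwa [Real.dist_eq, sub_zero])
  have hcont : ContinuousOn (fun y : ℝ => G (y, z)) (Icc (c - δ) (c + δ)) := by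
    have : Continuous (fun y : ℝ => G (y, z)) := by fun_prop
    exact this.continuousOn
  have hroot : ∃ y ∈ Icc (c - δ) (c + δ), G (y, z) = 0 := by
    rcases mul_neg_iff.1 h1 with ⟨h2, h3⟩ | ⟨h2, h3⟩
    · have := intermediate_value_Icc' (by linarith : c - δ ≤ c + δ) hcont
      obtain ⟨y, hy, hy2⟩ := this (show (0 : ℝ) ∈ Icc _ _ from ⟨h3.le, h2.le⟩)
      exact ⟨y, hy, hy2⟩
    · have := intermediate_value_Icc (by linarith : c - δ ≤ c + δ) hcont
      obtain ⟨y, hy, hy2⟩ := this (show (0 : ℝ) ∈ Icc _ _ from ⟨h2.le, h3.le⟩)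
      exact ⟨y, hy, hy2⟩
  obtain ⟨y, hy, hy2⟩ := hroot
  have hyc : |y - c| ≤ δ := abs_le.2 ⟨by linarith [hy.1], by linarith [hy.2]⟩
  refine ⟨y, ?_, ?_⟩
  · have h2 : |c * (y - c)| ≤ |c| * (|c| / 2) := by
      rw [abs_mul]
      exact mul_le_mul_of_nonneg_left (hyc.trans hδc) hcp.le
    have h3 := (abs_le.1 h2).1
    have h4 : |c| * |c| = c * c := abs_mul_abs_self c
    nlinarith
  · have h2 : (![1, y, z] : Fin 3 → ℝ) ∈ Pool.Agent.L7h17.OC.realCone F :=
      ⟨hne y z, by rw [hGe]; exact hy2⟩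
    rw [← hS.cov] at h2
    obtain ⟨j, hj⟩ := mem_iUnion.1 h2
    by_cases hji : j = i
    · rwa [hji] at hj
    · exfalso
      have h3 := hball (y := (y, z)) (by
        rw [Prod.dist_eq, max_lt_iff, Real.dist_eq, Real.dist_eq, sub_zero]
        exact ⟨hyc.trans_lt hδε, hz1⟩) j hji
      rw [hK2 j] at hj
      exact h3 hj.1

theorem s_INF : S_INF := by
  intro k F C p f h hS hp hf
  refine ⟨?_, ?_, ?_⟩
  · intro c hc ha
    have h1 : (![1, c, 0] : Fin 3 → ℝ) ∈ Pool.Agent.L7h17.OC.realCone F := by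
      refine ⟨?_, ?_⟩
      · intro h1
        have := congrFun h1 0
        simp at this
      · rw [hom_zero h, ha]
        ring
    rw [← hS.cov] at h1
    exact mem_iUnion.1 h1
  · intro c i hc hi R
    obtain ⟨t0, ht0, hkey⟩ := key h hS hf c i hc hi
    have hc2 : 0 < c ^ 2 / 2 := by positivity
    have hR : 0 < |R| + 1 := by positivity
    obtain ⟨t, htd⟩ : ∃ t, t = min (t0 / 2) (min (1 / (|R| + 1)) (c ^ 2 / 2 / (|R| + 1))) := ⟨_, rfl⟩
    have ht : 0 < t := by
      rw [htd]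
      exact lt_min (by linarith) (lt_min (by positivity) (by positivity))
    have h1 : t < t0 := by rw [htd]; exact (min_le_left _ _).trans_lt (by linarith)
    have h2 : t ≤ 1 / (|R| + 1) := by
      rw [htd]; exact (min_le_right _ _).trans (min_le_left _ _)
    have h3 : t ≤ c ^ 2 / 2 / (|R| + 1) := by
      rw [htd]; exact (min_le_right _ _).trans (min_le_right _ _)
    have h4 : |R| + 1 ≤ 1 / t := by
      rw [le_div_iff₀ ht]
      rw [le_div_iff₀ hR] at h2
      linarith
    have h5 : |R| + 1 ≤ c ^ 2 / 2 / t := by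
      rw [le_div_iff₀ ht]
      rw [le_div_iff₀ hR] at h3
      linarith
    have hRR : R < |R| + 1 := (le_abs_self R).trans_lt (by linarith)
    constructor
    · obtain ⟨y, hy, hy2⟩ := hkey t (by rwa [abs_of_pos ht])
      refine ⟨(1 / t, y / t), ?_, ?_, ?_⟩
      · have h6 := hS.cone i _ hy2 (1 / t) (by positivity)
        have h7 : (1 / t) • (![1, y, t] : Fin 3 → ℝ) = ![1 / t, y / t, 1] := by
          funext j
          fin_cases j
          · simp
          · simp [div_eq_inv_mul]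
          · simp [ht.ne']
        rw [h7] at h6
        exact h6
      · show R < 1 / t
        linarith
      · show R < c * (y / t)
        have h6 : c ^ 2 / 2 / t ≤ c * (y / t) := by
          rw [← mul_div_assoc]
          exact div_le_div_of_nonneg_right hy ht.le
        linarith
    · obtain ⟨y, hy, hy2⟩ := hkey (-t) (by rw [abs_neg, abs_of_pos ht]; exact h1)
      refine ⟨(-(1 / t), -(y / t)), ?_, ?_, ?_⟩
      · have h6 := hS.cone i _ hy2 (-(1 / t)) (by
          have : (0 : ℝ) < 1 / t := by positivity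
          linarith)
        have h7 : (-(1 / t)) • (![1, y, -t] : Fin 3 → ℝ) = ![-(1 / t), -(y / t), 1] := by
          funext j
          fin_cases j
          · simp
          · simp [div_eq_inv_mul]
          · simp [ht.ne']
        rw [h7] at h6
        exact h6
      · show -(1 / t) < -R
        linarith
      · show c * -(y / t) < -R
        have h6 : c ^ 2 / 2 / t ≤ c * (y / t) := by
          rw [← mul_div_assoc]
          exact div_le_div_of_nonneg_right hy ht.le
        have h7 : c * -(y / t) = -(c * (y / t)) := by ring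
        rw [h7]
        linarith
  · intro i v hv hv2
    have h1 : v ∈ Pool.Agent.L7h17.OC.realCone F := by
      rw [← hS.cov]
      exact mem_iUnion.2 ⟨i, hv⟩
    have e : v = ![v 0, v 1, 0] := by
      funext j
      fin_cases j
      · rfl
      · rfl
      · exact hv2
    have h2 : p.leadingCoeff * (v 0) ^ 8 - f.leadingCoeff * (v 1) ^ 8 = 0 := by
      rw [← hom_zero h, ← e]
      exact h1.2
    have h3 : v 0 ≠ 0 := by
      intro h4
      rw [h4] at h2
      have h5 : v 1 = 0 := by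
        have : f.leadingCoeff * (v 1) ^ 8 = 0 := by linarith
        rcases mul_eq_zero.1 this with h6 | h6
        · exact absurd h6 hf.ne'
        · exact pow_eq_zero_iff (by norm_num) |>.1 h6
      apply h1.1
      rw [e, h4, h5]
      funext j
      fin_cases j <;> rfl
    have h4 : v 1 ≠ 0 := by
      intro h4
      rw [h4] at h2
      have : p.leadingCoeff * (v 0) ^ 8 = 0 := by linarith
      rcases mul_eq_zero.1 this with h6 | h6
      · exact hp.ne' h6
      · exact h3 (pow_eq_zero_iff (by norm_num) |>.1 h6)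
    refine ⟨v 1 / v 0, div_ne_zero h4 h3, ?_⟩
    have h5 := hS.cone i v hv (v 0)⁻¹ (inv_ne_zero h3)
    have h6 : (v 0)⁻¹ • v = ![1, v 1 / v 0, 0] := by
      funext j
      fin_cases j
      · simp [h3]
      · simp [div_eq_inv_mul]
      · simp [hv2]
    rwa [h6] at h5

end Pool.Agent.L7h84.SV
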